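import Pool.Agent.H39.Newt2.Base

/-!
# Project NEWTON2, module ZTW: labelled rays give no poles
-/

set_option autoImplicit false

namespace Pool.Newt2

open MvPolynomial Pool.Agent.H39.MonoR Pool.Agent.H75.Mono Pool.Newt

namespace ZtwAux

variable {σ I : Type} [Fintype σ] [Fintype I]

/-- the ratio of `w` is completely labelled -/
def CL (a : I → σ → ℕ) (w : σ → ℕ) : Prop :=
  ∃ (Y : Finset I) (l : I → σ), (∀ i ∈ Y, a i (l i) = 1) ∧ ∀ w', Rigid a w' → 0 < Nw a w' →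
    (∑ j, w j) * Nw a w' = (∑ j, w' j) * Nw a w → Lab a Y l w'

theorem dW_eq (a : I → σ → ℕ) (x : ℝˣ) (W : Multiset (σ → ℕ)) :
    dW a (↑(x⁻¹) : ℝ) W = PowerSeries.map (ev x) (dP (prs a W)) := by
  induction W using Multiset.induction_on with
  | empty =>
    unfold dW dP prs
    rw [Multiset.map_zero, Multiset.prod_zero, Multiset.map_zero, Multiset.map_zero,
      Multiset.prod_zero, map_one]
  | cons w W ih =>
    have h1 : dW a (↑(x⁻¹) : ℝ) (w ::ₘ W) =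
        (1 - PowerSeries.C ((↑(x⁻¹) : ℝ) ^ (∑ l, w l)) * PowerSeries.X ^ (Nw a w)) *
          dW a (↑(x⁻¹) : ℝ) W := by
      unfold dW
      rw [Multiset.map_cons, Multiset.prod_cons]
    have h2 : dP (prs a (w ::ₘ W)) =
        (1 - PowerSeries.C (LaurentPolynomial.T (-((∑ l, w l : ℕ) : ℤ))) *
          PowerSeries.X ^ (Nw a w)) * dP (prs a W) := by
      unfold dP prs
      rw [Multiset.map_cons, Multiset.map_cons, Multiset.prod_cons]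
    have h3 : ev x (LaurentPolynomial.T (-((∑ l, w l : ℕ) : ℤ))) =
        (↑(x⁻¹) : ℝ) ^ (∑ l, w l) := by
      unfold ev
      rw [LaurentPolynomial.eval₂_T_neg_n]
    have h4 : PowerSeries.map (ev x) ((PowerSeries.X : PowerSeries (LaurentPolynomial ℤ)) ^ Nw a w)
        = PowerSeries.X ^ Nw a w := by
      rw [map_pow, PowerSeries.map_X]
    rw [h1, h2, map_mul, ← ih, map_sub, map_one, map_mul, PowerSeries.map_C, h4, h3]

/-- the intersection of the denominators -/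
theorem inter (hInt : SInt) (a : I → σ → ℕ) (W : Multiset (σ → ℕ)) (N0 : ℕ)
    (hW : ∀ w ∈ W, 0 < Nw a w)
    (Yw : (σ → ℕ) → Finset I) (lw : (σ → ℕ) → I → σ) (Ww : (σ → ℕ) → Multiset (σ → ℕ))
    (Mw : (σ → ℕ) → ℕ)
    (hY : ∀ w, CL a w → ∀ w', Rigid a w' → 0 < Nw a w' →
      (∑ j, w j) * Nw a w' = (∑ j, w' j) * Nw a w → Lab a (Yw w) (lw w) w')
    (hWw : ∀ w, CL a w → ∀ w' ∈ Ww w, Rigid a w' ∧ 0 < Nw a w' ∧ ¬ Lab a (Yw w) (lw w) w')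
    (Φ : PowerSeries (LaurentPolynomial ℤ))
    (h1 : ∀ x : ℝˣ, 1 < (x : ℝ) → ∀ N, N0 ≤ N →
      PowerSeries.coeff N (dW a (↑(x⁻¹) : ℝ) W * PowerSeries.map (ev x) Φ) = 0)
    (h2 : ∀ w, CL a w → ∀ x : ℝˣ, 1 < (x : ℝ) → ∀ N, Mw w ≤ N →
      PowerSeries.coeff N (dW a (↑(x⁻¹) : ℝ) (Ww w) * PowerSeries.map (ev x) Φ) = 0) :
    ∃ W' : Multiset (ℕ × ℕ), (∀ p ∈ W', ∃ w ∈ W, ¬ CL a w ∧ p = (∑ j, w j, Nw a w)) ∧
      ∀ N, N0 ≤ N → PowerSeries.coeff N (dP W' * Φ) = 0 := by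
  obtain ⟨W', hle, h3, h4⟩ := hInt Φ (prs a W) N0 {w // CL a w} (fun w => prs a (Ww w.1))
    (fun w => Mw w.1) (by
      intro p hp
      obtain ⟨w, hw, rfl⟩ := Multiset.mem_map.1 hp
      exact hW w hw) (by
      intro j p hp
      obtain ⟨w, hw, rfl⟩ := Multiset.mem_map.1 hp
      exact (hWw j.1 j.2 w hw).2.1) (by
      intro x hx N hN
      rw [map_mul, ← dW_eq]
      exact h1 x hx N hN) (by
      intro j x hx N hN
      rw [map_mul, ← dW_eq]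
      exact h2 j.1 j.2 x hx N hN)
  refine ⟨W', fun p hp => ?_, h4⟩
  obtain ⟨w, hw, rfl⟩ := Multiset.mem_map.1 (Multiset.mem_of_le hle hp)
  refine ⟨w, hw, fun hc => ?_, rfl⟩
  obtain ⟨p', hp', he⟩ := h3 _ hp ⟨w, hc⟩
  obtain ⟨w', hw', rfl⟩ := Multiset.mem_map.1 hp'
  obtain ⟨hr, hN, hl⟩ := hWw w hc w' hw'
  exact hl (hY w hc w' hr hN he)

open Classical in
theorem key (hPsi : SPsi) (hInt : SInt) [Nonempty I] [Nonempty σ] (a : I → σ → ℕ) :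
    ∃ R : Finset (σ → ℕ), (∀ w ∈ R, Rigid a w ∧ 0 < Nw a w ∧ ¬ CL a w) ∧
      ∀ D : Finset I → ℤ, Inv2 a D → ∀ Φ : PowerSeries (LaurentPolynomial ℤ),
      ((D ∅ = 0 ∧ Φ = Psi a D) ∨ (D ∅ = 1 ∧ Φ = (1 - PowerSeries.X) * Psi a D - QQ a)) →
      ∃ (W' : Multiset (ℕ × ℕ)) (N0 : ℕ), (∀ p ∈ W', ∃ w ∈ R, p = (∑ j, w j, Nw a w)) ∧
        ∀ N, N0 ≤ N → PowerSeries.coeff N (dP W' * Φ) = 0 := by
  obtain ⟨W, N0, hW, hW0⟩ := hPsi σ I a ∅ (fun _ => Classical.arbitrary σ)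
    (fun i hi => absurd hi (Finset.notMem_empty i))
  -- the labels
  have hch : ∀ w : σ → ℕ, ∃ (Y : Finset I) (l : I → σ) (Ww : Multiset (σ → ℕ)) (Mw : ℕ),
      CL a w → (∀ w', Rigid a w' → 0 < Nw a w' →
        (∑ j, w j) * Nw a w' = (∑ j, w' j) * Nw a w → Lab a Y l w') ∧
      (∀ w' ∈ Ww, Rigid a w' ∧ 0 < Nw a w' ∧ ¬ Lab a Y l w') ∧
      ∀ x : ℝˣ, 1 < (x : ℝ) → ∀ D : Finset I → ℤ, Inv2 a D → ∀ N, Mw ≤ N →
        (D ∅ = 0 → PowerSeries.coeff N (dW a (↑(x⁻¹) : ℝ) Ww *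
          PowerSeries.map (ev x) (Psi a D)) = 0) ∧
        (D ∅ = 1 → PowerSeries.coeff N (dW a (↑(x⁻¹) : ℝ) Ww *
          PowerSeries.map (ev x) ((1 - PowerSeries.X) * Psi a D - QQ a)) = 0) := by
    intro w
    by_cases hc : CL a w
    · obtain ⟨Y, l, h1, h2⟩ := hc
      obtain ⟨Ww, Mw, h3, h4⟩ := hPsi σ I a Y l h1
      exact ⟨Y, l, Ww, Mw, fun _ => ⟨h2, h3, h4⟩⟩
    · exact ⟨∅, fun _ => Classical.arbitrary σ, 0, 0, fun h => absurd h hc⟩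
  choose Yw lw Ww Mw hw using hch
  refine ⟨W.toFinset.filter fun w => ¬ CL a w, fun w hw => ?_, fun D hD Φ hΦ => ?_⟩
  · obtain ⟨h1, h2⟩ := Finset.mem_filter.1 hw
    obtain ⟨h3, h4, -⟩ := hW w (Multiset.mem_toFinset.1 h1)
    exact ⟨h3, h4, h2⟩
  · obtain ⟨W', h1, h2⟩ := inter hInt a W N0 (fun w hw => (hW w hw).2.1) Yw lw Ww Mw
      (fun w hc => (hw w hc).1) (fun w hc => (hw w hc).2.1) Φ (by
        intro x hx N hN
        rcases hΦ with ⟨h0, rfl⟩ | ⟨h0, rfl⟩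
        · exact (hW0 x hx D hD N hN).1 h0
        · exact (hW0 x hx D hD N hN).2 h0) (by
        intro w hc x hx N hN
        rcases hΦ with ⟨h0, rfl⟩ | ⟨h0, rfl⟩
        · exact ((hw w hc).2.2 x hx D hD N hN).1 h0
        · exact ((hw w hc).2.2 x hx D hD N hN).2 h0)
    refine ⟨W', N0, fun p hp => ?_, h2⟩
    obtain ⟨w, hw1, hw2, rfl⟩ := h1 p hp
    exact ⟨w, Finset.mem_filter.2 ⟨Multiset.mem_toFinset.2 hw1, hw2⟩, rfl⟩

theorem Fs_zero [Nonempty I] [IsEmpty σ] (a : I → σ → ℕ) (τ : Finset I) : Fs a τ = 0 := by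
  classical
  ext1 N
  unfold Fs
  rw [PowerSeries.coeff_mk, map_zero]
  split_ifs with hN
  · rfl
  · unfold Fc
    refine Finset.sum_eq_zero fun u hu => ?_
    exfalso
    obtain ⟨-, -, h1⟩ := Finset.mem_filter.1 hu
    have h2 : Nw a u = 0 := by
      unfold Nw
      refine Nat.sInf_eq_zero.2 (Or.inl ⟨Classical.arbitrary I, ?_⟩)
      unfold dot
      exact Finset.sum_of_isEmpty _
    exact hN (h1.symm.trans h2)

theorem Psi_zero [Nonempty I] [IsEmpty σ] (a : I → σ → ℕ) (D : Finset I → ℤ) :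
    Psi a D = 0 := by
  unfold Psi
  exact Finset.sum_eq_zero fun τ _ => by rw [Fs_zero, mul_zero]

theorem QQ_zero [Nonempty I] [IsEmpty σ] (a : I → σ → ℕ) : QQ a = 0 := by
  unfold QQ
  exact Finset.sum_eq_zero fun τ _ => by rw [Fs_zero, mul_zero]

theorem rs_mono {k : Type} [Field k] [Algebra k ℂ] {S S' : Set (ℤ × ℕ)} (h : S ⊆ S') :
    RS k S ≤ RS k S' := by
  refine Algebra.adjoin_mono (Set.union_subset_union_right _ ?_)
  rintro g ⟨p, hp, hg⟩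
  exact ⟨p, h hp, hg⟩

end ZtwAux

open ZtwAux in
theorem sZtw (hZfm : SZfm) (hMba : SMba) (hPsi : SPsi) (hInt : SInt) (hMem : SMem) : SZtw := by
  intro k _ _ σ I _ _ _ a c hc hn
  have hR : ∃ R : Finset (σ → ℕ), (∀ w ∈ R, Rigid a w ∧ 0 < Nw a w ∧ ¬ CL a w) ∧
      ∀ D : Finset I → ℤ, Inv2 a D → ∀ Φ : PowerSeries (LaurentPolynomial ℤ),
      ((D ∅ = 0 ∧ Φ = Psi a D) ∨ (D ∅ = 1 ∧ Φ = (1 - PowerSeries.X) * Psi a D - QQ a)) →
      ∃ (W' : Multiset (ℕ × ℕ)) (N0 : ℕ), (∀ p ∈ W', ∃ w ∈ R, p = (∑ j, w j, Nw a w)) ∧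
        ∀ N, N0 ≤ N → PowerSeries.coeff N (dP W' * Φ) = 0 := by
    rcases isEmpty_or_nonempty σ with he | he
    · refine ⟨∅, fun w hw => absurd hw (Finset.notMem_empty w), fun D _ Φ hΦ =>
        ⟨0, 0, fun p hp => absurd hp (Multiset.notMem_zero p), fun N _ => ?_⟩⟩
      have h0 : Φ = 0 := by
        rcases hΦ with ⟨-, rfl⟩ | ⟨-, rfl⟩
        · exact Psi_zero a D
        · rw [Psi_zero, QQ_zero, mul_zero, sub_zero]
      rw [h0, mul_zero, map_zero]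
    · exact key hPsi hInt a
  obtain ⟨R, hR1, hR2⟩ := hR
  refine ⟨R, hR1, ?_⟩
  set S : Set (ℤ × ℕ) := {((-1 : ℤ), (1 : ℕ))} ∪
    {p | ∃ w ∈ R, p = (-((∑ j, w j : ℕ) : ℤ), Nw a w)} with hS
  have hS0 : ∀ p ∈ S, 0 < p.2 := by
    rintro p (hp | ⟨w, hw, rfl⟩)
    · rw [Set.mem_singleton_iff.1 hp]
      exact Nat.one_pos
    · exact (hR1 w hw).2.1
  have hS1 : ((-1 : ℤ), (1 : ℕ)) ∈ S := Or.inl rfl
  have hmem : ∀ D : Finset I → ℤ, Inv2 a D → ∀ Φ : PowerSeries (LaurentPolynomial ℤ),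
      ((D ∅ = 0 ∧ Φ = Psi a D) ∨ (D ∅ = 1 ∧ Φ = (1 - PowerSeries.X) * Psi a D - QQ a)) →
      PowerSeries.map (ev (Lu k)) Φ ∈ RS k S := by
    intro D hD Φ hΦ
    obtain ⟨W', N0, h1, h2⟩ := hR2 D hD Φ hΦ
    refine hMem k S hS0 Φ W' N0 (fun p hp => ?_) h2
    obtain ⟨w, hw, rfl⟩ := h1 p hp
    exact Or.inr ⟨w, hw, rfl⟩
  obtain ⟨C, hC1, hC2, hC3, Z0, hZ0, hZ⟩ := hZfm k σ I a c hc hn
  rw [hZ]
  refine (RS k S).add_mem (rs_mono (k := k) (Set.singleton_subset_iff.2 hS1) hZ0)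
    (hMba k σ I a C hC1 hC2 hC3 S hS1 (fun D hD h0 => hmem D hD _ (Or.inl ⟨h0, rfl⟩))
      (fun D hD h0 => hmem D hD _ (Or.inr ⟨h0, rfl⟩)))

end Pool.Newt2
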