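import Pool.Agent.H39.Newt2.Base

/-!
# Project NEWTON2, module INT: intersection of denominators
-/

set_option autoImplicit false

namespace Pool.Newt2

namespace IntAux

open Polynomial

/-- the denominators over the reals -/
noncomputable def dR (x : ℝ) (W : Multiset (ℕ × ℕ)) : ℝ[X] :=
  (W.map fun p => 1 - C ((x ^ p.1)⁻¹) * X ^ p.2).prod

theorem dR_cons (x : ℝ) (p : ℕ × ℕ) (W : Multiset (ℕ × ℕ)) :
    dR x (p ::ₘ W) = (1 - C ((x ^ p.1)⁻¹) * X ^ p.2) * dR x W := by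
  unfold dR
  rw [Multiset.map_cons, Multiset.prod_cons]

theorem ev_T (x : ℝˣ) (n : ℕ) :
    ev x (LaurentPolynomial.T (-(n : ℤ))) = ((x : ℝ) ^ n)⁻¹ := by
  unfold ev
  rw [LaurentPolynomial.eval₂_T_neg_n, Units.val_inv_eq_inv_val, inv_pow]

theorem map_dP (x : ℝˣ) (W : Multiset (ℕ × ℕ)) :
    PowerSeries.map (ev x) (dP W) = ((dR x W : ℝ[X]) : PowerSeries ℝ) := by
  induction W using Multiset.induction_on with
  | empty =>
    unfold dP dR
    rw [Multiset.map_zero, Multiset.prod_zero, Multiset.map_zero, Multiset.prod_zero, map_one,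
      Polynomial.coe_one]
  | cons p W ih =>
    rw [dR_cons, Polynomial.coe_mul, ← ih]
    unfold dP
    rw [Multiset.map_cons, Multiset.prod_cons, map_mul, map_sub, map_one, map_mul,
      PowerSeries.map_C, map_pow, PowerSeries.map_X, ev_T, Polynomial.coe_sub, Polynomial.coe_one,
      Polynomial.coe_mul, Polynomial.coe_C, Polynomial.coe_pow, Polynomial.coe_X]

theorem pl_of {A : PowerSeries ℝ} {N0 : ℕ} (h : ∀ N, N0 ≤ N → PowerSeries.coeff N A = 0) :
    ∃ p : ℝ[X], A = (p : PowerSeries ℝ) := by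
  refine ⟨PowerSeries.trunc N0 A, ?_⟩
  ext n
  rw [Polynomial.coeff_coe, PowerSeries.coeff_trunc]
  split_ifs with hn
  · rfl
  · exact h n (not_lt.1 hn)

theorem last {p : ℝ[X]} {N0 N : ℕ} {a : ℝ} (ha : a ≠ 0) (hN : 0 < N)
    (h : ∀ k, N0 ≤ k → PowerSeries.coeff k
      (((1 - C a * X ^ N : ℝ[X]) : PowerSeries ℝ) * (p : PowerSeries ℝ)) = 0) :
    ∀ k, N0 ≤ k → PowerSeries.coeff k (p : PowerSeries ℝ) = 0 := by
  have key : ∀ j k, N0 ≤ k → p.natDegree < k + j →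
      PowerSeries.coeff k (p : PowerSeries ℝ) = 0 := by
    intro j
    induction j with
    | zero =>
      intro k _ hk
      rw [Polynomial.coeff_coe]
      exact Polynomial.coeff_eq_zero_of_natDegree_lt (by omega)
    | succ j ih =>
      intro k hk hd
      have h1 := h (k + N) (by omega)
      have h2 := ih (k + N) (by omega) (by omega)
      rw [Polynomial.coe_sub, Polynomial.coe_one, Polynomial.coe_mul, Polynomial.coe_C,
        Polynomial.coe_pow, Polynomial.coe_X, sub_mul, one_mul, map_sub, h2, mul_assoc,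
        PowerSeries.coeff_C_mul, PowerSeries.coeff_X_pow_mul, zero_sub, neg_eq_zero] at h1
      exact (mul_eq_zero.1 h1).resolve_left ha
  intro k hk
  exact key (p.natDegree + 1) k hk (by omega)

theorem cop {x : ℝ} (hx : 1 < x) {p q : ℕ × ℕ} (h : p.1 * q.2 ≠ q.1 * p.2) :
    IsCoprime (1 - C ((x ^ p.1)⁻¹) * X ^ p.2 : ℝ[X]) (1 - C ((x ^ q.1)⁻¹) * X ^ q.2) := by
  have hx0 : 0 < x := by linarith
  have hU : (1 - C ((x ^ p.1)⁻¹) * X ^ p.2 : ℝ[X]) ∣
      1 - C (((x ^ p.1)⁻¹) ^ q.2) * X ^ (p.2 * q.2) := by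
    have := sub_dvd_pow_sub_pow (1 : ℝ[X]) (C ((x ^ p.1)⁻¹) * X ^ p.2) q.2
    rwa [one_pow, mul_pow, ← C_pow, ← pow_mul] at this
  have hV : (1 - C ((x ^ q.1)⁻¹) * X ^ q.2 : ℝ[X]) ∣
      1 - C (((x ^ q.1)⁻¹) ^ p.2) * X ^ (p.2 * q.2) := by
    have := sub_dvd_pow_sub_pow (1 : ℝ[X]) (C ((x ^ q.1)⁻¹) * X ^ q.2) p.2
    rwa [one_pow, mul_pow, ← C_pow, ← pow_mul, mul_comm q.2 p.2] at this
  have hne : ((x ^ q.1)⁻¹) ^ p.2 - ((x ^ p.1)⁻¹) ^ q.2 ≠ 0 := by
    intro h0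
    have h1 : ((x ^ q.1)⁻¹) ^ p.2 = ((x ^ p.1)⁻¹) ^ q.2 := sub_eq_zero.1 h0
    rw [inv_pow, inv_pow, inv_inj, ← pow_mul, ← pow_mul] at h1
    exact h ((pow_right_injective₀ hx0 (ne_of_gt hx)) h1).symm
  have hUV : IsCoprime (1 - C (((x ^ p.1)⁻¹) ^ q.2) * X ^ (p.2 * q.2) : ℝ[X])
      (1 - C (((x ^ q.1)⁻¹) ^ p.2) * X ^ (p.2 * q.2)) := by
    generalize ((x ^ q.1)⁻¹) ^ p.2 = β at *
    generalize ((x ^ p.1)⁻¹) ^ q.2 = α at *
    refine ⟨C (β / (β - α)), C (-α / (β - α)), ?_⟩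
    have h1 : C (β / (β - α)) * (1 - C α * X ^ (p.2 * q.2)) +
        C (-α / (β - α)) * (1 - C β * X ^ (p.2 * q.2)) =
        C (β / (β - α) + -α / (β - α)) -
          C (β / (β - α) * α + -α / (β - α) * β) * X ^ (p.2 * q.2) := by
      rw [C_add, C_add, C_mul, C_mul]
      ring
    rw [h1]
    have h2 : β / (β - α) + -α / (β - α) = 1 := by
      field_simp
      ring
    have h3 : β / (β - α) * α + -α / (β - α) * β = 0 := by
      ring
    rw [h2, h3, C_0, C_1, zero_mul, sub_zero]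
  exact (hUV.of_isCoprime_of_dvd_left hU).of_isCoprime_of_dvd_right hV

theorem cop_dR {x : ℝ} (hx : 1 < x) {p : ℕ × ℕ} {W : Multiset (ℕ × ℕ)}
    (h : ∀ q ∈ W, p.1 * q.2 ≠ q.1 * p.2) :
    IsCoprime (1 - C ((x ^ p.1)⁻¹) * X ^ p.2 : ℝ[X]) (dR x W) := by
  induction W using Multiset.induction_on with
  | empty =>
    unfold dR
    rw [Multiset.map_zero, Multiset.prod_zero]
    exact isCoprime_one_right
  | cons q W ih =>
    rw [dR_cons]
    exact IsCoprime.mul_right (cop hx (h q (Multiset.mem_cons_self q W)))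
      (ih fun r hr => h r (Multiset.mem_cons_of_mem hr))

theorem step {x : ℝ} (hx : 1 < x) {Φ : PowerSeries ℝ} {p : ℕ × ℕ} {W WJ : Multiset (ℕ × ℕ)}
    {N0 NJ : ℕ} (hp : 0 < p.2) (hnp : ∀ q ∈ WJ, p.1 * q.2 ≠ q.1 * p.2)
    (h1 : ∀ N, N0 ≤ N → PowerSeries.coeff N
      (((dR x (p ::ₘ W) : ℝ[X]) : PowerSeries ℝ) * Φ) = 0)
    (h2 : ∀ N, NJ ≤ N → PowerSeries.coeff N (((dR x WJ : ℝ[X]) : PowerSeries ℝ) * Φ) = 0) :
    ∀ N, N0 ≤ N → PowerSeries.coeff N (((dR x W : ℝ[X]) : PowerSeries ℝ) * Φ) = 0 := by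
  have hx0 : 0 < x := by linarith
  obtain ⟨B, hB⟩ := pl_of h1
  obtain ⟨E, hE⟩ := pl_of h2
  obtain ⟨s, t, hst⟩ := cop_dR hx hnp
  have hA : ((dR x W : ℝ[X]) : PowerSeries ℝ) * Φ =
      ((s * B + t * (dR x W * E) : ℝ[X]) : PowerSeries ℝ) := by
    have h3 : (s : PowerSeries ℝ) * ((1 - C ((x ^ p.1)⁻¹) * X ^ p.2 : ℝ[X]) : PowerSeries ℝ) +
        (t : PowerSeries ℝ) * ((dR x WJ : ℝ[X]) : PowerSeries ℝ) = 1 := by
      rw [← Polynomial.coe_mul, ← Polynomial.coe_mul, ← Polynomial.coe_add, hst,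
        Polynomial.coe_one]
    rw [Polynomial.coe_add, Polynomial.coe_mul, Polynomial.coe_mul, Polynomial.coe_mul, ← hB,
      ← hE, dR_cons, Polynomial.coe_mul]
    calc ((dR x W : ℝ[X]) : PowerSeries ℝ) * Φ =
        ((s : PowerSeries ℝ) * ((1 - C ((x ^ p.1)⁻¹) * X ^ p.2 : ℝ[X]) : PowerSeries ℝ) +
          (t : PowerSeries ℝ) * ((dR x WJ : ℝ[X]) : PowerSeries ℝ)) *
          (((dR x W : ℝ[X]) : PowerSeries ℝ) * Φ) := by rw [h3, one_mul]
      _ = _ := by ring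
  rw [hA]
  refine last (inv_ne_zero (pow_ne_zero p.1 hx0.ne')) hp fun k hk => ?_
  rw [← hA, ← mul_assoc, ← Polynomial.coe_mul, ← dR_cons]
  exact h1 k hk

end IntAux

open IntAux Polynomial in
theorem sInt (hL : SLpz) : SInt := by
  intro Φ W N0 J WJ NJ
  induction W using Multiset.strongInductionOn with
  | ih W ih =>
    intro hW hWJ h1 h2
    by_cases hc : ∀ p ∈ W, ∀ j, ∃ p' ∈ WJ j, p.1 * p'.2 = p'.1 * p.2
    · refine ⟨W, le_rfl, hc, fun N hN => hL _ fun x hx => ?_⟩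
      have := h1 x hx N hN
      rwa [PowerSeries.coeff_map] at this
    · push Not at hc
      obtain ⟨p, hp, j, hj⟩ := hc
      obtain ⟨W1, rfl⟩ := Multiset.exists_cons_of_mem hp
      obtain ⟨W', hle, h3, h4⟩ := ih W1 (Multiset.lt_cons_self _ _)
        (fun q hq => hW q (Multiset.mem_cons_of_mem hq)) hWJ (fun x hx => by
          have h5 : ∀ N, N0 ≤ N → PowerSeries.coeff N
              (((dR x (p ::ₘ W1) : ℝ[X]) : PowerSeries ℝ) * PowerSeries.map (ev x) Φ) = 0 := by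
            intro N hN
            rw [← map_dP, ← map_mul]
            exact h1 x hx N hN
          have h6 : ∀ N, NJ j ≤ N → PowerSeries.coeff N
              (((dR x (WJ j) : ℝ[X]) : PowerSeries ℝ) * PowerSeries.map (ev x) Φ) = 0 := by
            intro N hN
            rw [← map_dP, ← map_mul]
            exact h2 j x hx N hN
          intro N hN
          rw [map_mul, map_dP]
          exact step hx (hW p (Multiset.mem_cons_self p W1)) hj h5 h6 N hN) h2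
      exact ⟨W', hle.trans (Multiset.le_cons_self _ _), h3, h4⟩

end Pool.Newt2
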